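import Pool.Agent.Y377.IL.Stm2

set_option autoImplicit false

/-!
Varieties which are covered by rational curves have no pluricanonical forms.
-/

namespace Pool.Agent.Y288.IL

open MvPolynomial FF Pool.Agent.W602.GT Pool.Agent.TH143 Pool.Agent.TH143.GT Pool.Agent.Y377.IL

section poly

variable {M : Type} [Field M]

/-- two nonzero polynomials with a constant ratio have the same degree -/
theorem deg_eq [CharZero M] {P Q : Polynomial M} (hP : P ≠ 0) (hQ : Q ≠ 0)
    (h : Polynomial.derivative P * Q = P * Polynomial.derivative Q) :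
    P.natDegree = Q.natDegree := by
  set m := P.natDegree with hm
  set k := Q.natDegree with hk
  by_cases hmk : m = 0 ∧ k = 0
  · omega
  have hs : 1 ≤ m + k := by omega
  have hPm : P.coeff m = P.leadingCoeff := rfl
  have hQk : Q.coeff k = Q.leadingCoeff := rfl
  have hc : ∀ u : ℕ, 0 < u → ((u - 1 : ℕ) : M) + 1 = (u : M) := by
    intro u hu
    have : ((u - 1 + 1 : ℕ) : M) = (u : M) := by rw [Nat.sub_add_cancel hu]
    rw [← this]
    push_cast
    ring
  have e1 : (Polynomial.derivative P * Q).coeff (m + k - 1) = m * P.leadingCoeff * Q.leadingCoeff := by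
    rcases Nat.eq_zero_or_pos m with h0 | h0
    · have h1 : Polynomial.derivative P = 0 := by
        rw [Polynomial.eq_C_of_natDegree_eq_zero h0, Polynomial.derivative_C]
      rw [h1, h0, zero_mul, Polynomial.coeff_zero, Nat.cast_zero, zero_mul, zero_mul]
    · have h1 : m + k - 1 = (m - 1) + k := by omega
      rw [h1, Polynomial.coeff_mul_add_eq_of_natDegree_le
        ((Polynomial.natDegree_derivative_le P).trans (by rw [← hm])) (le_of_eq hk.symm),
        Polynomial.coeff_derivative, Nat.sub_add_cancel h0, hPm, hQk, hc m h0]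
      ring
  have e2 : (P * Polynomial.derivative Q).coeff (m + k - 1) = k * P.leadingCoeff * Q.leadingCoeff := by
    rcases Nat.eq_zero_or_pos k with h0 | h0
    · have h1 : Polynomial.derivative Q = 0 := by
        rw [Polynomial.eq_C_of_natDegree_eq_zero h0, Polynomial.derivative_C]
      rw [h1, h0, mul_zero, Polynomial.coeff_zero, Nat.cast_zero, zero_mul, zero_mul]
    · have h1 : m + k - 1 = m + (k - 1) := by omega
      rw [h1, Polynomial.coeff_mul_add_eq_of_natDegree_le (le_of_eq hm.symm)
        ((Polynomial.natDegree_derivative_le Q).trans (by rw [← hk])),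
        Polynomial.coeff_derivative, Nat.sub_add_cancel h0, hPm, hQk, hc k h0]
      ring
  rw [h, e2] at e1
  have hP' : P.leadingCoeff ≠ 0 := Polynomial.leadingCoeff_ne_zero.2 hP
  have hQ' : Q.leadingCoeff ≠ 0 := Polynomial.leadingCoeff_ne_zero.2 hQ
  have e3 : (k : M) = m := mul_right_cancel₀ hP' (mul_right_cancel₀ hQ' e1)
  exact_mod_cast e3.symm

/-- polynomials with a constant ratio -/
theorem ratio_const [CharZero M] {P Q : Polynomial M} (hQ : Q ≠ 0)
    (h : Polynomial.derivative P * Q = P * Polynomial.derivative Q) :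
    ∃ c : M, P = Polynomial.C c * Q := by
  by_cases hP : P = 0
  · exact ⟨0, by rw [hP, map_zero, zero_mul]⟩
  have hQ' : Q.leadingCoeff ≠ 0 := Polynomial.leadingCoeff_ne_zero.2 hQ
  have hP' : P.leadingCoeff ≠ 0 := Polynomial.leadingCoeff_ne_zero.2 hP
  have hd := deg_eq hP hQ h
  refine ⟨P.leadingCoeff / Q.leadingCoeff, ?_⟩
  by_contra hne
  set c : M := P.leadingCoeff / Q.leadingCoeff with hc
  have hc0 : c ≠ 0 := div_ne_zero hP' hQ'
  have hR : P - Polynomial.C c * Q ≠ 0 := sub_ne_zero.2 hne
  have h1 : Polynomial.derivative (P - Polynomial.C c * Q) * Q =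
      (P - Polynomial.C c * Q) * Polynomial.derivative Q := by
    rw [Polynomial.derivative_sub, Polynomial.derivative_C_mul, sub_mul, h]
    ring
  have h2 := deg_eq hR hQ h1
  have h3 : (P - Polynomial.C c * Q).leadingCoeff ≠ 0 := Polynomial.leadingCoeff_ne_zero.2 hR
  apply h3
  rw [Polynomial.leadingCoeff, h2, Polynomial.coeff_sub, Polynomial.coeff_C_mul,
    Polynomial.coeff_natDegree, ← hd, Polynomial.coeff_natDegree, hc, div_mul_cancel₀ _ hQ',
    sub_self]

end poly

theorem t_PL : S_PL := by
  intro n p K _ _ w y hy hw hcov N hN ω hω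
  obtain ⟨M, iM, iA, φ, r, hr⟩ := hcov
  have : CharZero M := charZero_of_injective_algebraMap (algebraMap ℂ M).injective
  obtain ⟨l, hl⟩ := Function.ne_iff.1 hy.sub.ne
  have hl0 : y l ≠ 0 := hl
  obtain ⟨b, hb⟩ := IsLocalization.exist_integer_multiples_of_finite
    (nonZeroDivisors (Polynomial M)) (S := RatFunc M) (fun j => φ (y j / y l))
  choose W hW using hb
  have hW' : ∀ j, rf (W j) = rf (b : Polynomial M) * φ (y j / y l) := by
    intro j
    have h1 := hW j
    rw [Algebra.smul_def] at h1
    exact h1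
  have hb0 : (b : Polynomial M) ≠ 0 := nonZeroDivisors.ne_zero b.2
  have hrb : rf (b : Polynomial M) ≠ 0 := by rwa [Ne, rf_zero]
  have hWl : W l = b := by
    apply rf_inj
    rw [hW' l, div_self hl0, map_one, mul_one]
  have hWl0 : rf (W l) ≠ 0 := by rw [hWl]; exact hrb
  have hrat : ∀ j, rf (W j) / rf (W l) = φ (y j / y l) := by
    intro j
    rw [hW' j, hWl, mul_comm, mul_div_assoc, div_self hrb, mul_one]
  have hyW : ∀ H : MvPolynomial (Fin (n + 1)) ℂ, IsForm H →
      (W602.GT.val y H = 0 ↔ (aeval W H : Polynomial M) = 0) := by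
    rintro H ⟨d, hH⟩
    have h1 : (aeval W H : Polynomial M) = 0 ↔ W602.GT.val (fun j => rf (W j)) H = 0 := by
      rw [val_rf, rf_zero]
    rw [h1, val_scale hl0 hH, val_scale (z := fun j => rf (W j)) hWl0 hH]
    have h2 : φ (aeval (fun j => y j / y l) H) =
        aeval (fun j => rf (W j) / rf (W l)) H := by
      have h3 := MvPolynomial.comp_aeval_apply (f := fun j => y j / y l) φ H
      rw [h3]
      congr 2
      funext j
      exact (hrat j).symm
    rw [← h2, mul_eq_zero, mul_eq_zero, map_eq_zero φ]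
    simp only [pow_ne_zero d hl0, pow_ne_zero d hWl0, false_or]
  have hWlne : W l ≠ 0 := by rw [hWl]; exact hb0
  have hnf : ∃ j, Polynomial.derivative (W j) * W l ≠ W j * Polynomial.derivative (W l) := by
    by_contra hcon
    push Not at hcon
    have h1 : ∀ j, ∃ c : M, φ (y j / y l) = algebraMap M (RatFunc M) c := by
      intro j
      obtain ⟨c, hc⟩ := ratio_const hWlne (hcon j)
      refine ⟨c, ?_⟩
      rw [← hrat j, hc, rf_mul, mul_div_assoc, div_self hWl0, mul_one]
      rfl
    have h2 : coords ℂ y ≤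
        (((⊥ : IntermediateField M (RatFunc M)).restrictScalars ℂ).comap φ) := by
      unfold coords
      rw [IntermediateField.adjoin_le_iff]
      rintro _ ⟨i, j, hj, rfl⟩
      obtain ⟨c, hc⟩ := h1 i
      obtain ⟨c', hc'⟩ := h1 j
      change φ (y i / y j) ∈ (⊥ : IntermediateField M (RatFunc M))
      have h3 : y i / y j = (y i / y l) / (y j / y l) := by field_simp
      rw [h3, map_div₀, hc, hc', ← map_div₀]
      exact (⊥ : IntermediateField M (RatFunc M)).algebraMap_mem _
    rw [hy.sub.gen] at h2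
    have h3 : φ r ∈ (⊥ : IntermediateField M (RatFunc M)) :=
      h2 (IntermediateField.mem_top (x := r))
    obtain ⟨c, hc⟩ := IntermediateField.mem_bot.1 h3
    exact hr c hc.symm
  obtain ⟨j, hj⟩ := hnf
  obtain ⟨M', _, _, m', hm', W', hW1, -, hW3⟩ := desc W (X l) (X j) 1
    ⟨1, 1, 0, one_ne_zero, by rw [map_one, map_one, pow_zero]⟩ (by
      rw [aeval_X, aeval_X]
      exact hj)
  have hF : Fam y 1 W' 0 := ⟨fun H hH => by
    rw [hyW H hH, hW1 H], 1, one_ne_zero, by
      rw [map_one, map_one, pow_zero, mul_one]⟩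
  have hvl : W602.GT.val y (X l : MvPolynomial (Fin (n + 1)) ℂ) ≠ 0 := by
    unfold W602.GT.val
    rwa [aeval_X]
  funext D
  exact (hF.main hy.sub.dim hm' hy.sub.ne hy.sub.gen (isHomogeneous_one _ _)).2.2.2 rfl
    ⟨W602.GT.val y (X j) / W602.GT.val y (X l), fun h => hW3 (h 1 (X j) (X l)
      (isHomogeneous_X _ _) (isHomogeneous_X _ _) hvl rfl)⟩ N hN ω (hω.logSec _) D

end Pool.Agent.Y288.IL
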